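import Pool.Agent.Q62.PD.D8

open MeasureTheory Filter Topology

namespace Pool.Agent.Results.MP_bf093f_an.StrongProfile

open Pool.Agent.Q62.PC

/-- `vₙ → v` strongly in `L^p(ℝᴺ)` and `∇vₙ → ∇v` strongly in `L²(ℝᴺ)` -/
def StrongD {N : ℕ} (p : ℝ) (V : ℕ → E N → ℝ) (W : ℕ → E N → E N) (v : E N → ℝ)
    (G : E N → E N) : Prop :=
  MemLp v (ENNReal.ofReal p) volume ∧
  Tendsto (fun n => eLpNorm (V n - v) (ENNReal.ofReal p) volume) atTop (𝓝 0) ∧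
  Tendsto (fun n => eLpNorm (W n - G) 2 volume) atTop (𝓝 0)

/-- along the subsequence `φ`, the rescaled functions centred at `k n` converge weakly in
`D^{1,2}(ℝᴺ)` to a function `v ≢ 0` with gradient `G` -/
def NonzeroLimit {N : ℕ} (p : ℝ) (ε : ℕ → ℝ) (g : ℕ → E N → E N)
    (k : ℕ → Fin N → ℤ) (φ : ℕ → ℕ) (v : E N → ℝ) (G : E N → E N) : Prop :=
  StrictMono φ ∧ InD v G ∧ WeakD (fun n => rescG p (ε (φ n)) (k (φ n)) (g (φ n))) G ∧
    ¬ v =ᵐ[volume] 0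

/-- the statement of Q1: there are centres and a subsequence with a nonzero weak limit, which is
nonnegative if the functions `u n` are -/
def HasProfile {N : ℕ} (p : ℝ) (ε : ℕ → ℝ) (u : ℕ → E N → ℝ) (g : ℕ → E N → E N) : Prop :=
  ∃ k φ v G, NonzeroLimit p ε g k φ v G ∧ ((∀ n, 0 ≤ᵐ[volume] u n) → 0 ≤ᵐ[volume] v)

/-- the statement of Q2: every nonzero weak limit is a strong limit -/
def ProfilesStrong {N : ℕ} (p : ℝ) (ε : ℕ → ℝ) (u : ℕ → E N → ℝ) (g : ℕ → E N → E N) : Prop :=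
  ∀ k φ v G, NonzeroLimit p ε g k φ v G →
    StrongD p (fun n => resc p (ε (φ n)) (k (φ n)) (u (φ n)))
      (fun n => rescG p (ε (φ n)) (k (φ n)) (g (φ n))) v G

/-- Q1 and Q2 are both true, for least energy solutions (positive or not). -/
theorem result (N : ℕ) (hN : 3 ≤ N) (p : ℝ) (hp : 2 < p) (hp2 : p * ((N : ℝ) - 2) < 2 * N)
    (ε : ℕ → ℝ) (hε : ∀ n, 0 < ε n ∧ ε n < 1 / 2) (hε0 : Tendsto ε atTop (𝓝 0))
    (u : ℕ → E N → ℝ) (g : ℕ → E N → E N) (hu : ∀ n, IsLeast p (ε n) (u n) (g n)) :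
    HasProfile p ε u g ∧ ProfilesStrong p ε u g := by
  refine ⟨?_, ?_⟩
  · obtain ⟨k, φ, v, G, h1, h2, h3, h4, h5⟩ := Q1 hN hp hp2 (fun n => (hε n).1) hε0 hu
    exact ⟨k, φ, v, G, ⟨h1, h2, h3, h4⟩, h5⟩
  · rintro k φ v G ⟨h1, h2, h3, h4⟩
    exact Q2 hN hp hp2 (fun n => (hε n).1) hε0 hu h1 h2 h3 h4

end Pool.Agent.Results.MP_bf093f_an.StrongProfile
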